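import Mathlib

/-!
# Obata holonomy algebras of nilpotent hypercomplex Lie groups: all derived lengths, all classes

Let `A` be the solvable Lie algebra of the complex hyperbolic plane with its hypercomplex structure;
the curvature operators of its Obata connection span a copy of `su(2)`. The Lie algebra
`A ⊗ t ℝ[t] / (t ^ (N + 1))` is nilpotent of dimension `4 N`, its Obata connection is the `t`-linear
extension of that of `A`, and its holonomy algebra is exactly `su(2) ⊗ t ^ 2 ℝ[t] / (t ^ N)`. So its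
derived series has the dimensions `3 (N - 2 ^ (d + 1))`, and its lower central series has the
dimensions `3 (N - 2 (c + 1))` (or `0`, if this is negative).
-/

set_option autoImplicit false

attribute [local instance 100] LieRing.ofAssociativeRing

set_option linter.unusedSimpArgs false

namespace Pool.Agent.Results.MP_590da2_gt.EveryLengthAndClass

/-- A complex structure on a real Lie algebra: `J² = -1` and the Nijenhuis tensor vanishes. -/
structure IsComplex {L : Type*} [LieRing L] [LieAlgebra ℝ L] (J : Module.End ℝ L) : Prop where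
  sq : ∀ x, J (J x) = -x
  integrable : ∀ x y, ⁅x, y⁆ + J (⁅J x, y⁆ + ⁅x, J y⁆) - ⁅J x, J y⁆ = 0

/-- A hypercomplex structure on a real Lie algebra `L`: three complex structures `J₁, J₂, J₃` with
`J₁ J₂ = - J₂ J₁ = J₃`. -/
structure Hypercomplex (L : Type*) [LieRing L] [LieAlgebra ℝ L] where
  J₁ : Module.End ℝ L
  J₂ : Module.End ℝ L
  J₃ : Module.End ℝ L
  complex₁ : IsComplex J₁
  complex₂ : IsComplex J₂
  complex₃ : IsComplex J₃
  mul₁₂ : ∀ x, J₁ (J₂ x) = J₃ x
  mul₂₁ : ∀ x, J₂ (J₁ x) = -J₃ x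

namespace Hypercomplex

variable {L : Type*} [LieRing L] [LieAlgebra ℝ L] (H : Hypercomplex L)

/-- The commutator of two endomorphisms. -/
def comm (S T : Module.End ℝ L) : Module.End ℝ L := S * T - T * S

/-- The endomorphism `y ↦ A [x, B y]`. -/
noncomputable def twist (A B : Module.End ℝ L) (x : L) : Module.End ℝ L :=
  A * LieAlgebra.ad ℝ L x * B

/-- The Obata connection on left-invariant vector fields,
`∇_x y = 1/2 ([x, y] + J₁ [J₁ x, y] - J₂ [x, J₂ y] + J₃ [J₁ x, J₂ y])`. -/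
noncomputable def obata (x : L) : Module.End ℝ L :=
  (1 / 2 : ℝ) • (twist 1 1 x + twist H.J₁ 1 (H.J₁ x) - twist H.J₂ H.J₂ x
    + twist H.J₃ H.J₂ (H.J₁ x))

theorem obata_apply (x y : L) : H.obata x y =
    (1 / 2 : ℝ) • (⁅x, y⁆ + H.J₁ ⁅H.J₁ x, y⁆ - H.J₂ ⁅x, H.J₂ y⁆ + H.J₃ ⁅H.J₁ x, H.J₂ y⁆) := rfl

/-- The curvature `R(x, y) = [∇_x, ∇_y] - ∇_[x, y]`. -/
noncomputable def curvature (x y : L) : Module.End ℝ L :=
  comm (H.obata x) (H.obata y) - H.obata ⁅x, y⁆

/-- The space `h` is closed under commutators. -/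
def IsLie (h : Submodule ℝ (Module.End ℝ L)) : Prop := ∀ S ∈ h, ∀ T ∈ h, comm S T ∈ h

/-- The space `h` contains all curvature operators and is closed under the commutators with all
operators `∇_x`. -/
def IsInvariant (h : Submodule ℝ (Module.End ℝ L)) : Prop :=
  (∀ x y, H.curvature x y ∈ h) ∧ ∀ x, ∀ T ∈ h, comm (H.obata x) T ∈ h

/-- The holonomy algebra of the left-invariant connection `∇`: the smallest Lie algebra of
endomorphisms which contains all curvature operators `R(x, y)` and is closed under the commutators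
with all `∇_x`. -/
noncomputable def holonomy : Submodule ℝ (Module.End ℝ L) :=
  sInf {h | IsLie h ∧ H.IsInvariant h}

/-- The span of all commutators of elements of `h`. -/
def commutators (h : Submodule ℝ (Module.End ℝ L)) : Submodule ℝ (Module.End ℝ L) :=
  Submodule.span ℝ {C | ∃ S ∈ h, ∃ T ∈ h, C = comm S T}

/-- The derived series of the holonomy algebra: the term `0` is the holonomy algebra, and the term
`d + 1` is the span of the commutators of the elements of the term `d`. -/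
noncomputable def derivedHolonomy (H : Hypercomplex L) : ℕ → Submodule ℝ (Module.End ℝ L)
  | 0 => H.holonomy
  | d + 1 => commutators (derivedHolonomy H d)

/-- The lower central series of the holonomy algebra: the term `0` is the holonomy algebra, and the
term `c + 1` is the span of the commutators of the elements of the term `c` with the elements of the
holonomy algebra. -/
noncomputable def lowerHolonomy (H : Hypercomplex L) : ℕ → Submodule ℝ (Module.End ℝ L)
  | 0 => H.holonomy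
  | c + 1 => Submodule.span ℝ {C | ∃ S ∈ lowerHolonomy H c, ∃ T ∈ H.holonomy, C = comm S T}

theorem curvature_mem_holonomy (x y : L) : H.curvature x y ∈ H.holonomy := by
  rw [holonomy, Submodule.mem_sInf]
  exact fun h hh => hh.2.1 x y

end Hypercomplex

abbrev V := Fin 4 → ℝ

/-- The four-dimensional solvable bracket. -/
noncomputable def b4 : V →ₗ[ℝ] V →ₗ[ℝ] V := LinearMap.mk₂ ℝ (fun a b =>
  ![0, 2 * (a 0 * b 1 - a 1 * b 0) + (a 3 * b 2 - a 2 * b 3), a 0 * b 2 - a 2 * b 0,
    a 0 * b 3 - a 3 * b 0])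
  (fun a b c => by ext j; fin_cases j <;> simp <;> ring)
  (fun a b c => by ext j; fin_cases j <;> simp <;> ring)
  (fun a b c => by ext j; fin_cases j <;> simp <;> ring)
  (fun a b c => by ext j; fin_cases j <;> simp <;> ring)

lemma b4_ap (a b : V) : b4 a b =
  ![0, 2 * (a 0 * b 1 - a 1 * b 0) + (a 3 * b 2 - a 2 * b 3), a 0 * b 2 - a 2 * b 0,
    a 0 * b 3 - a 3 * b 0] := rfl

lemma b4_anti (a b : V) : b4 a b = -b4 b a := by
  ext j; fin_cases j <;> simp [b4_ap] <;> ring

lemma b4_jac (a b c : V) : b4 a (b4 b c) = b4 (b4 a b) c + b4 b (b4 a c) := by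
  ext j; fin_cases j <;> simp [b4_ap] <;> ring

def j1 : V →ₗ[ℝ] V where
  toFun a := ![-a 1, a 0, -a 3, a 2]
  map_add' a b := by ext j; fin_cases j <;> simp <;> ring
  map_smul' c a := by ext j; fin_cases j <;> simp

def j2 : V →ₗ[ℝ] V where
  toFun a := ![-a 2, a 3, a 0, -a 1]
  map_add' a b := by ext j; fin_cases j <;> simp <;> ring
  map_smul' c a := by ext j; fin_cases j <;> simp

def j3 : V →ₗ[ℝ] V where
  toFun a := ![-a 3, -a 2, a 1, a 0]
  map_add' a b := by ext j; fin_cases j <;> simp <;> ring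
  map_smul' c a := by ext j; fin_cases j <;> simp

lemma j1_ap (a : V) : j1 a = ![-a 1, a 0, -a 3, a 2] := rfl
lemma j2_ap (a : V) : j2 a = ![-a 2, a 3, a 0, -a 1] := rfl
lemma j3_ap (a : V) : j3 a = ![-a 3, -a 2, a 1, a 0] := rfl

lemma nij1 (a b : V) : b4 a b + j1 (b4 (j1 a) b) + j1 (b4 a (j1 b)) - b4 (j1 a) (j1 b) = 0 := by
  ext j; fin_cases j <;> simp [b4_ap, j1_ap] <;> ring
lemma nij2 (a b : V) : b4 a b + j2 (b4 (j2 a) b) + j2 (b4 a (j2 b)) - b4 (j2 a) (j2 b) = 0 := by
  ext j; fin_cases j <;> simp [b4_ap, j2_ap] <;> ring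
lemma nij3 (a b : V) : b4 a b + j3 (b4 (j3 a) b) + j3 (b4 a (j3 b)) - b4 (j3 a) (j3 b) = 0 := by
  ext j; fin_cases j <;> simp [b4_ap, j3_ap] <;> ring

/-- The truncated current algebra; the index `i` is the coefficient of `t ^ (i + 1)`. -/
def L (N : ℕ) : Type := Fin N → V

variable {N : ℕ}

noncomputable instance : AddCommGroup (L N) := inferInstanceAs (AddCommGroup (Fin N → V))
noncomputable instance : Module ℝ (L N) := inferInstanceAs (Module ℝ (Fin N → V))
instance : Module.Finite ℝ (L N) := inferInstanceAs (Module.Finite ℝ (Fin N → V))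

theorem finrank_L : Module.finrank ℝ (L N) = 4 * N := by
  have : Module.finrank ℝ (Fin N → V) = N * 4 := by simp [Module.finrank_pi_fintype]
  rw [mul_comm]; exact this

lemma add_ap (a b : L N) (i) : (a + b) i = a i + b i := rfl
lemma sub_ap (a b : L N) (i) : (a - b) i = a i - b i := rfl
lemma neg_ap (a : L N) (i) : (-a) i = -a i := rfl
lemma zero_ap (i) : (0 : L N) i = 0 := rfl
lemma smul_ap (c : ℝ) (a : L N) (i) : (c • a) i = c • a i := rfl

/-- The `t`-bilinear extension. -/
noncomputable def conv (f : V →ₗ[ℝ] V →ₗ[ℝ] V) (a b : L N) : L N :=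
  fun k => ∑ i : Fin N, ∑ j : Fin N, if (i : ℕ) + j + 1 = k then f (a i) (b j) else 0

lemma conv_ap (f : V →ₗ[ℝ] V →ₗ[ℝ] V) (a b : L N) (k : Fin N) :
    conv f a b k = ∑ i : Fin N, ∑ j : Fin N, if (i : ℕ) + j + 1 = k then f (a i) (b j) else 0 := rfl

theorem tri_left (f g : V →ₗ[ℝ] V →ₗ[ℝ] V) (a b c : L N) (k : Fin N) :
    conv f (conv g a b) c k = ∑ i : Fin N, ∑ j : Fin N, ∑ m : Fin N,
      if (i : ℕ) + j + m + 2 = k then f (g (a i) (b j)) (c m) else 0 := by
  have h1 : ∀ l m : Fin N, (if (l : ℕ) + m + 1 = k then f (conv g a b l) (c m) else 0)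
      = ∑ i : Fin N, ∑ j : Fin N,
        if ((i : ℕ) + j + 1 = l ∧ (l : ℕ) + m + 1 = k) then f (g (a i) (b j)) (c m) else 0 := by
    intro l m
    by_cases h : (l : ℕ) + m + 1 = k
    · rw [if_pos h, conv_ap]
      simp only [map_sum, LinearMap.sum_apply]
      refine Finset.sum_congr rfl fun i _ => Finset.sum_congr rfl fun j _ => ?_
      by_cases h2 : (i : ℕ) + j + 1 = l
      · rw [if_pos h2, if_pos ⟨h2, h⟩]
      · rw [if_neg h2, if_neg (fun h3 => h2 h3.1)]; simp
    · rw [if_neg h]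
      symm
      refine Finset.sum_eq_zero fun i _ => Finset.sum_eq_zero fun j _ => ?_
      rw [if_neg (fun h3 => h h3.2)]
  rw [conv_ap]
  simp only [h1]
  rw [Finset.sum_congr rfl fun l _ => Finset.sum_comm, Finset.sum_comm]
  refine Finset.sum_congr rfl fun i _ => ?_
  rw [Finset.sum_congr rfl fun l _ => Finset.sum_comm, Finset.sum_comm]
  refine Finset.sum_congr rfl fun j _ => ?_
  rw [Finset.sum_comm]
  refine Finset.sum_congr rfl fun m _ => ?_
  by_cases h : (i : ℕ) + j + m + 2 = k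
  · rw [if_pos h, Finset.sum_eq_single (⟨(i : ℕ) + j + 1, by have := k.2; omega⟩ : Fin N)]
    · rw [if_pos ⟨rfl, by show (i : ℕ) + j + 1 + m + 1 = k; omega⟩]
    · intro l _ hl
      rw [if_neg]
      rintro ⟨h2, -⟩
      exact hl (Fin.ext h2.symm)
    · intro h2; exact absurd (Finset.mem_univ _) h2
  · rw [if_neg h]
    refine Finset.sum_eq_zero fun l _ => ?_
    rw [if_neg]
    rintro ⟨h2, h3⟩
    omega

theorem tri_right (f g : V →ₗ[ℝ] V →ₗ[ℝ] V) (a b c : L N) (k : Fin N) :
    conv f a (conv g b c) k = ∑ i : Fin N, ∑ j : Fin N, ∑ m : Fin N,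
      if (i : ℕ) + j + m + 2 = k then f (a i) (g (b j) (c m)) else 0 := by
  have h1 : ∀ i l : Fin N, (if (i : ℕ) + l + 1 = k then f (a i) (conv g b c l) else 0)
      = ∑ j : Fin N, ∑ m : Fin N,
        if ((j : ℕ) + m + 1 = l ∧ (i : ℕ) + l + 1 = k) then f (a i) (g (b j) (c m)) else 0 := by
    intro i l
    by_cases h : (i : ℕ) + l + 1 = k
    · rw [if_pos h, conv_ap]
      simp only [map_sum]
      refine Finset.sum_congr rfl fun j _ => Finset.sum_congr rfl fun m _ => ?_
      by_cases h2 : (j : ℕ) + m + 1 = l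
      · rw [if_pos h2, if_pos ⟨h2, h⟩]
      · rw [if_neg h2, if_neg (fun h3 => h2 h3.1)]; simp
    · rw [if_neg h]
      symm
      refine Finset.sum_eq_zero fun i _ => Finset.sum_eq_zero fun j _ => ?_
      rw [if_neg (fun h3 => h h3.2)]
  rw [conv_ap]
  simp only [h1]
  refine Finset.sum_congr rfl fun i _ => ?_
  rw [Finset.sum_comm]
  refine Finset.sum_congr rfl fun j _ => ?_
  rw [Finset.sum_comm]
  refine Finset.sum_congr rfl fun m _ => ?_
  by_cases h : (i : ℕ) + j + m + 2 = k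
  · rw [if_pos h, Finset.sum_eq_single (⟨(j : ℕ) + m + 1, by have := k.2; omega⟩ : Fin N)]
    · rw [if_pos ⟨rfl, by show (i : ℕ) + ((j : ℕ) + m + 1) + 1 = k; omega⟩]
    · intro l _ hl
      rw [if_neg]
      rintro ⟨h2, -⟩
      exact hl (Fin.ext h2.symm)
    · intro h2; exact absurd (Finset.mem_univ _) h2
  · rw [if_neg h]
    refine Finset.sum_eq_zero fun l _ => ?_
    rw [if_neg]
    rintro ⟨h2, h3⟩
    omega

theorem swap12 (F : Fin N → Fin N → Fin N → V) (k : Fin N) :
    (∑ i : Fin N, ∑ j : Fin N, ∑ m : Fin N, if (i : ℕ) + j + m + 2 = k then F j i m else 0)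
      = ∑ i : Fin N, ∑ j : Fin N, ∑ m : Fin N, if (i : ℕ) + j + m + 2 = k then F i j m else 0 := by
  rw [Finset.sum_comm]
  refine Finset.sum_congr rfl fun i _ => Finset.sum_congr rfl fun j _ =>
    Finset.sum_congr rfl fun m _ => ?_
  rw [add_comm (j : ℕ) i]

lemma conv_add_left (f : V →ₗ[ℝ] V →ₗ[ℝ] V) (a b c : L N) :
    conv f (a + b) c = conv f a c + conv f b c := by
  funext k
  rw [add_ap, conv_ap, conv_ap, conv_ap, ← Finset.sum_add_distrib]
  refine Finset.sum_congr rfl fun i _ => ?_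
  rw [← Finset.sum_add_distrib]
  refine Finset.sum_congr rfl fun j _ => ?_
  split_ifs
  · rw [add_ap, map_add, LinearMap.add_apply]
  · rw [add_zero]

lemma conv_add_right (f : V →ₗ[ℝ] V →ₗ[ℝ] V) (a b c : L N) :
    conv f a (b + c) = conv f a b + conv f a c := by
  funext k
  rw [add_ap, conv_ap, conv_ap, conv_ap, ← Finset.sum_add_distrib]
  refine Finset.sum_congr rfl fun i _ => ?_
  rw [← Finset.sum_add_distrib]
  refine Finset.sum_congr rfl fun j _ => ?_
  split_ifs
  · rw [add_ap, map_add]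
  · rw [add_zero]

lemma conv_smul_right (f : V →ₗ[ℝ] V →ₗ[ℝ] V) (r : ℝ) (a b : L N) :
    conv f a (r • b) = r • conv f a b := by
  funext k
  rw [smul_ap, conv_ap, conv_ap, Finset.smul_sum]
  refine Finset.sum_congr rfl fun i _ => ?_
  rw [Finset.smul_sum]
  refine Finset.sum_congr rfl fun j _ => ?_
  split_ifs
  · rw [smul_ap, map_smul]
  · rw [smul_zero]

lemma conv_anti (a b : L N) : conv b4 a b = -conv b4 b a := by
  funext k
  rw [neg_ap, conv_ap, conv_ap, Finset.sum_comm, ← Finset.sum_neg_distrib]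
  refine Finset.sum_congr rfl fun i _ => ?_
  rw [← Finset.sum_neg_distrib]
  refine Finset.sum_congr rfl fun j _ => ?_
  rw [add_comm (j : ℕ) i]
  split_ifs
  · rw [b4_anti]
  · rw [neg_zero]

noncomputable instance : LieRing (L N) where
  bracket := conv b4
  add_lie a b c := conv_add_left b4 a b c
  lie_add a b c := conv_add_right b4 a b c
  lie_self a := by
    have h := conv_anti a a
    show conv b4 a a = 0
    have h2 : (2 : ℝ) • conv b4 a a = 0 := by
      rw [two_smul]
      nth_rewrite 1 [h]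
      exact neg_add_cancel _
    exact (smul_eq_zero.1 h2).resolve_left two_ne_zero
  leibniz_lie a b c := by
    show conv b4 a (conv b4 b c) = conv b4 (conv b4 a b) c + conv b4 b (conv b4 a c)
    funext k
    rw [add_ap, tri_right, tri_left, tri_right,
      swap12 (fun i j m => b4 (b j) (b4 (a i) (c m))), ← Finset.sum_add_distrib]
    refine Finset.sum_congr rfl fun i _ => ?_
    rw [← Finset.sum_add_distrib]
    refine Finset.sum_congr rfl fun j _ => ?_
    rw [← Finset.sum_add_distrib]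
    refine Finset.sum_congr rfl fun m _ => ?_
    split_ifs
    · exact b4_jac _ _ _
    · rw [add_zero]

lemma lie_eq (a b : L N) : ⁅a, b⁆ = conv b4 a b := rfl

noncomputable instance : LieAlgebra ℝ (L N) where
  lie_smul c a b := conv_smul_right b4 c a b

instance : LieRing.IsNilpotent (L N) := by
  rw [LieAlgebra.isNilpotent_iff_forall (R := ℝ)]
  intro a
  have key : ∀ (n : ℕ) (b : L N) (k : Fin N), (k : ℕ) < n →
      ((LieAlgebra.ad ℝ (L N) a ^ n) b) k = 0 := by
    intro n
    induction n with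
    | zero => intro b k hk; omega
    | succ n ih =>
      intro b k hk
      rw [pow_succ', Module.End.mul_apply, LieAlgebra.ad_apply, lie_eq, conv_ap]
      refine Finset.sum_eq_zero fun i _ => Finset.sum_eq_zero fun j _ => ?_
      split_ifs with h
      · rw [ih b j (by omega), map_zero]
      · rfl
  refine ⟨N, LinearMap.ext fun b => ?_⟩
  funext k
  exact key N b k k.2

/-- Coefficientwise extension of an endomorphism. -/
def up (j : V →ₗ[ℝ] V) : (L N) →ₗ[ℝ] (L N) where
  toFun a := fun i => j (a i)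
  map_add' a b := funext fun i => j.map_add (a i) (b i)
  map_smul' c a := funext fun i => j.map_smul c (a i)

lemma up_ap (j : V →ₗ[ℝ] V) (a : L N) (i) : up j a i = j (a i) := rfl

lemma up_conv (j : V →ₗ[ℝ] V) (f : V →ₗ[ℝ] V →ₗ[ℝ] V) (a b : L N) (k : Fin N) :
    up j (conv f a b) k
      = ∑ i : Fin N, ∑ l : Fin N, if (i : ℕ) + l + 1 = k then j (f (a i) (b l)) else 0 := by
  rw [up_ap, conv_ap, map_sum]
  refine Finset.sum_congr rfl fun i _ => ?_
  rw [map_sum]
  refine Finset.sum_congr rfl fun l _ => ?_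
  split_ifs
  · rfl
  · exact map_zero _

lemma nij (j : V →ₗ[ℝ] V)
    (h : ∀ a b, b4 a b + j (b4 (j a) b) + j (b4 a (j b)) - b4 (j a) (j b) = 0)
    (X Y : L N) : ⁅X, Y⁆ + up j (⁅up j X, Y⁆ + ⁅X, up j Y⁆) - ⁅up j X, up j Y⁆ = 0 := by
  funext k
  rw [map_add, sub_ap, add_ap, add_ap, zero_ap]
  simp only [lie_eq]
  rw [up_conv, up_conv, conv_ap, conv_ap, ← Finset.sum_add_distrib, ← Finset.sum_add_distrib,
    ← Finset.sum_sub_distrib]
  refine Finset.sum_eq_zero fun i _ => ?_
  rw [← Finset.sum_add_distrib, ← Finset.sum_add_distrib, ← Finset.sum_sub_distrib]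
  refine Finset.sum_eq_zero fun l _ => ?_
  split_ifs
  · have := h (X i) (Y l)
    rw [← this, up_ap, up_ap]
    abel
  · simp

/-- The hypercomplex structure of the truncated current algebra. -/
noncomputable def HC (N : ℕ) : Hypercomplex (L N) where
  J₁ := up j1
  J₂ := up j2
  J₃ := up j3
  complex₁ := ⟨fun a => by
    funext i; rw [up_ap, up_ap, neg_ap]; ext l; fin_cases l <;> simp [j1_ap], nij j1 nij1⟩
  complex₂ := ⟨fun a => by
    funext i; rw [up_ap, up_ap, neg_ap]; ext l; fin_cases l <;> simp [j2_ap], nij j2 nij2⟩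
  complex₃ := ⟨fun a => by
    funext i; rw [up_ap, up_ap, neg_ap]; ext l; fin_cases l <;> simp [j3_ap], nij j3 nij3⟩
  mul₁₂ a := by funext i; rw [up_ap, up_ap, up_ap]; ext l; fin_cases l <;> simp [j1_ap, j2_ap, j3_ap]
  mul₂₁ a := by
    funext i; rw [up_ap, up_ap, neg_ap, up_ap]; ext l; fin_cases l <;> simp [j1_ap, j2_ap, j3_ap]

/-- The four-dimensional connection. -/
noncomputable def n4 : V →ₗ[ℝ] V →ₗ[ℝ] V :=
  (1 / 2 : ℝ) • (b4 + (b4.comp j1).compr₂ j1 - (b4.compl₂ j2).compr₂ j2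
    + ((b4.comp j1).compl₂ j2).compr₂ j3)

lemma n4_eq (a b : V) : n4 a b = (1 / 2 : ℝ) •
    (b4 a b + j1 (b4 (j1 a) b) - j2 (b4 a (j2 b)) + j3 (b4 (j1 a) (j2 b))) := rfl

lemma n4_ap (a b : V) : n4 a b =
  ![(3 * a 0 * b 0 + a 1 * b 1 - a 2 * b 2 - a 3 * b 3) / 2,
    (3 * a 0 * b 1 - a 1 * b 0 - a 2 * b 3 + a 3 * b 2) / 2,
    (3 * a 0 * b 2 - a 1 * b 3 + a 2 * b 0 - a 3 * b 1) / 2,
    (3 * a 0 * b 3 + a 1 * b 2 + a 2 * b 1 + a 3 * b 0) / 2] := by
  rw [n4_eq]
  ext j; fin_cases j <;> simp [b4_ap, j1_ap, j2_ap, j3_ap] <;> ring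

lemma obata_eq (a b : L N) : (HC N).obata a b = conv n4 a b := by
  rw [Hypercomplex.obata_apply]
  funext k
  rw [smul_ap, add_ap, sub_ap, add_ap]
  show (1 / 2 : ℝ) • (conv b4 a b k + up j1 (conv b4 (up j1 a) b) k
    - up j2 (conv b4 a (up j2 b)) k + up j3 (conv b4 (up j1 a) (up j2 b)) k) = _
  rw [up_conv, up_conv, up_conv, conv_ap, conv_ap, ← Finset.sum_add_distrib,
    ← Finset.sum_sub_distrib, ← Finset.sum_add_distrib, Finset.smul_sum]
  refine Finset.sum_congr rfl fun i _ => ?_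
  rw [← Finset.sum_add_distrib, ← Finset.sum_sub_distrib, ← Finset.sum_add_distrib,
    Finset.smul_sum]
  refine Finset.sum_congr rfl fun l _ => ?_
  split_ifs
  · rw [n4_eq]; rfl
  · simp

/-- The operator `T t ^ n`. -/
noncomputable def S (n : ℕ) (T : V →ₗ[ℝ] V) : Module.End ℝ (L N) where
  toFun a := fun k => ∑ m : Fin N, if (m : ℕ) + n = k then T (a m) else 0
  map_add' a b := by
    funext k
    show (∑ m : Fin N, if (m : ℕ) + n = k then T ((a + b) m) else 0)
      = (∑ m : Fin N, if (m : ℕ) + n = k then T (a m) else 0)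
        + ∑ m : Fin N, if (m : ℕ) + n = k then T (b m) else 0
    rw [← Finset.sum_add_distrib]
    refine Finset.sum_congr rfl fun m _ => ?_
    split_ifs
    · rw [add_ap, map_add]
    · rw [add_zero]
  map_smul' c a := by
    funext k
    show (∑ m : Fin N, if (m : ℕ) + n = k then T ((c • a) m) else 0)
      = c • ∑ m : Fin N, if (m : ℕ) + n = k then T (a m) else 0
    rw [Finset.smul_sum]
    refine Finset.sum_congr rfl fun m _ => ?_
    split_ifs
    · rw [smul_ap, map_smul]
    · rw [smul_zero]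

lemma S_ap (n : ℕ) (T : V →ₗ[ℝ] V) (a : L N) (k : Fin N) :
    S n T a k = ∑ m : Fin N, if (m : ℕ) + n = k then T (a m) else 0 := rfl

lemma S_mul (n m : ℕ) (T T' : V →ₗ[ℝ] V) :
    (S n T : Module.End ℝ (L N)) * S m T' = S (n + m) (T ∘ₗ T') := by
  refine LinearMap.ext fun a => ?_
  funext k
  rw [Module.End.mul_apply, S_ap, S_ap]
  have h1 : ∀ l : Fin N, (if (l : ℕ) + n = k then T ((S m T' a : L N) l) else 0)
      = ∑ i : Fin N, if ((i : ℕ) + m = l ∧ (l : ℕ) + n = k) then T (T' (a i)) else 0 := by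
    intro l
    by_cases h : (l : ℕ) + n = k
    · rw [if_pos h, S_ap, map_sum]
      refine Finset.sum_congr rfl fun i _ => ?_
      by_cases h2 : (i : ℕ) + m = l
      · rw [if_pos h2, if_pos ⟨h2, h⟩]
      · rw [if_neg h2, if_neg (fun h3 => h2 h3.1)]; simp
    · rw [if_neg h]
      symm
      refine Finset.sum_eq_zero fun i _ => ?_
      rw [if_neg (fun h3 => h h3.2)]
  simp only [h1]
  rw [Finset.sum_comm]
  refine Finset.sum_congr rfl fun i _ => ?_
  by_cases h : (i : ℕ) + (n + m) = k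
  · rw [if_pos h, Finset.sum_eq_single (⟨(i : ℕ) + m, by have := k.2; omega⟩ : Fin N)]
    · rw [if_pos ⟨rfl, by show (i : ℕ) + m + n = k; omega⟩]; rfl
    · intro l _ hl
      rw [if_neg]
      rintro ⟨h2, -⟩
      exact hl (Fin.ext h2.symm)
    · intro h2; exact absurd (Finset.mem_univ _) h2
  · rw [if_neg h]
    refine Finset.sum_eq_zero fun l _ => ?_
    rw [if_neg]
    rintro ⟨h2, h3⟩
    omega

lemma S_sub (n : ℕ) (T T' : V →ₗ[ℝ] V) :
    (S n T : Module.End ℝ (L N)) - S n T' = S n (T - T') := by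
  refine LinearMap.ext fun a => ?_
  funext k
  rw [LinearMap.sub_apply, sub_ap, S_ap, S_ap, S_ap, ← Finset.sum_sub_distrib]
  refine Finset.sum_congr rfl fun m _ => ?_
  split_ifs
  · rw [LinearMap.sub_apply]
  · rw [sub_zero]

lemma S_smul (n : ℕ) (c : ℝ) (T : V →ₗ[ℝ] V) :
    c • (S n T : Module.End ℝ (L N)) = S n (c • T) := by
  refine LinearMap.ext fun a => ?_
  funext k
  rw [LinearMap.smul_apply, smul_ap, S_ap, S_ap, Finset.smul_sum]
  refine Finset.sum_congr rfl fun m _ => ?_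
  split_ifs
  · rw [LinearMap.smul_apply]
  · rw [smul_zero]

lemma S_comm (n m : ℕ) (T T' : V →ₗ[ℝ] V) :
    Hypercomplex.comm (S n T : Module.End ℝ (L N)) (S m T' : Module.End ℝ (L N))
      = S (n + m) (T ∘ₗ T' - T' ∘ₗ T) := by
  rw [Hypercomplex.comm, S_mul, S_mul, add_comm m n, S_sub]

/-- The element `v t ^ (i + 1)`. -/
noncomputable def e (i : Fin N) (v : V) : L N := Pi.single i v

lemma e_same (i : Fin N) (v : V) : e i v i = v := Pi.single_eq_same _ _

lemma e_ne {i j : Fin N} (h : j ≠ i) (v : V) : e i v j = 0 := Pi.single_eq_of_ne h _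

/-- The curvature of the four-dimensional connection. -/
noncomputable def R4 (x y : V) : V →ₗ[ℝ] V :=
  n4 x ∘ₗ n4 y - n4 y ∘ₗ n4 x - n4 (b4 x y)

theorem sum_single (i j : Fin N) (k : Fin N) (F : Fin N → Fin N → Fin N → V)
    (h1 : ∀ i', i' ≠ i → ∀ j' m, F i' j' m = 0) (h2 : ∀ j', j' ≠ j → ∀ m, F i j' m = 0) :
    (∑ i' : Fin N, ∑ j' : Fin N, ∑ m : Fin N, if (i' : ℕ) + j' + m + 2 = k then F i' j' m else 0)
      = ∑ m : Fin N, if (m : ℕ) + (i + j + 2) = k then F i j m else 0 := by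
  rw [Finset.sum_eq_single i, Finset.sum_eq_single j]
  · refine Finset.sum_congr rfl fun m _ => ?_
    have : (i : ℕ) + j + m + 2 = m + (i + j + 2) := by ring
    rw [this]
  · intro j' _ hj'
    refine Finset.sum_eq_zero fun m _ => ?_
    rw [h2 j' hj', ite_self]
  · intro h; exact absurd (Finset.mem_univ _) h
  · intro i' _ hi'
    refine Finset.sum_eq_zero fun j' _ => Finset.sum_eq_zero fun m _ => ?_
    rw [h1 i' hi', ite_self]
  · intro h; exact absurd (Finset.mem_univ _) h

theorem curv_eq (i j : Fin N) (x y : V) :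
    (HC N).curvature (e i x) (e j y) = S (i + j + 2) (R4 x y) := by
  refine LinearMap.ext fun a => ?_
  funext k
  have hL : (HC N).curvature (e i x) (e j y) a
      = conv n4 (e i x) (conv n4 (e j y) a) - conv n4 (e j y) (conv n4 (e i x) a)
        - conv n4 (conv b4 (e i x) (e j y)) a := by
    unfold Hypercomplex.curvature Hypercomplex.comm
    rw [LinearMap.sub_apply, LinearMap.sub_apply, Module.End.mul_apply, Module.End.mul_apply,
      obata_eq, obata_eq, obata_eq, obata_eq, obata_eq, lie_eq]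
  rw [hL, sub_ap, sub_ap, tri_right, tri_right, tri_left,
    swap12 (fun i' j' m => n4 (e j y j') (n4 (e i x i') (a m))),
    sum_single i j k (fun i' j' m => n4 (e i x i') (n4 (e j y j') (a m))),
    sum_single i j k (fun i' j' m => n4 (e j y j') (n4 (e i x i') (a m))),
    sum_single i j k (fun i' j' m => n4 (b4 (e i x i') (e j y j')) (a m)), S_ap,
    ← Finset.sum_sub_distrib, ← Finset.sum_sub_distrib]
  · refine Finset.sum_congr rfl fun m _ => ?_
    split_ifs
    · rw [e_same, e_same]; rfl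
    · simp
  · intro i' h j' m; simp only [e_ne h, map_zero, LinearMap.zero_apply]
  · intro j' h m; simp only [e_ne h, map_zero, LinearMap.zero_apply]
  · intro i' h j' m; simp only [e_ne h, map_zero, LinearMap.zero_apply]
  · intro j' h m; simp only [e_ne h, map_zero, LinearMap.zero_apply]
  · intro i' h j' m; simp only [e_ne h, map_zero, LinearMap.zero_apply]
  · intro j' h m; simp only [e_ne h, map_zero, LinearMap.zero_apply]

/-- The three operators which span the holonomy algebra in dimension four. -/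
noncomputable def U : Fin 3 → (V →ₗ[ℝ] V) :=
  ![(2 : ℝ) • n4 ![0, 1, 0, 0], (2 : ℝ) • n4 ![0, 0, 1, 0], (2 : ℝ) • n4 ![0, 0, 0, 1]]

theorem U_comm : U 0 ∘ₗ U 1 - U 1 ∘ₗ U 0 = (2 : ℝ) • U 2 ∧
    U 1 ∘ₗ U 2 - U 2 ∘ₗ U 1 = (2 : ℝ) • U 0 ∧ U 2 ∘ₗ U 0 - U 0 ∘ₗ U 2 = (2 : ℝ) • U 1 := by
  refine ⟨?_, ?_, ?_⟩ <;> refine LinearMap.ext fun a => ?_ <;> ext j <;> fin_cases j <;>
    simp [U, n4_ap] <;> ring

theorem R4_U : R4 ![1, 0, 0, 0] ![0, 1, 0, 0] = (-1 : ℝ) • U 0 ∧
    R4 ![1, 0, 0, 0] ![0, 0, 1, 0] = (-1 / 2 : ℝ) • U 1 ∧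
    R4 ![1, 0, 0, 0] ![0, 0, 0, 1] = (-1 / 2 : ℝ) • U 2 := by
  refine ⟨?_, ?_, ?_⟩ <;> refine LinearMap.ext fun a => ?_ <;> ext j <;> fin_cases j <;>
    simp [U, R4, n4_ap, b4_ap] <;> ring

theorem S_mem (n : ℕ) (hn : 2 ≤ n) (hnN : n < N) (r : Fin 3) :
    (S n (U r) : Module.End ℝ (L N)) ∈ (HC N).holonomy := by
  have h0 : 0 < N := by omega
  have key : ∀ (x y : V), (S n (R4 x y) : Module.End ℝ (L N)) ∈ (HC N).holonomy := by
    intro x y
    have h1 := (HC N).curvature_mem_holonomy (e ⟨0, h0⟩ x) (e ⟨n - 2, by omega⟩ y)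
    rw [curv_eq] at h1
    have h2 : ((⟨0, h0⟩ : Fin N) : ℕ) + ((⟨n - 2, by omega⟩ : Fin N) : ℕ) + 2 = n := by
      show 0 + (n - 2) + 2 = n
      omega
    rwa [h2] at h1
  obtain ⟨h1, h2, h3⟩ := R4_U
  have k1 := key ![1, 0, 0, 0] ![0, 1, 0, 0]
  have k2 := key ![1, 0, 0, 0] ![0, 0, 1, 0]
  have k3 := key ![1, 0, 0, 0] ![0, 0, 0, 1]
  rw [h1, ← S_smul] at k1
  rw [h2, ← S_smul] at k2
  rw [h3, ← S_smul] at k3
  fin_cases r
  · have := (HC N).holonomy.smul_mem (-1 : ℝ) k1
    rw [smul_smul] at this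
    norm_num at this
    exact this
  · have := (HC N).holonomy.smul_mem (-2 : ℝ) k2
    rw [smul_smul] at this
    norm_num at this
    exact this
  · have := (HC N).holonomy.smul_mem (-2 : ℝ) k3
    rw [smul_smul] at this
    norm_num at this
    exact this

theorem S_derived (d : ℕ) : ∀ (n : ℕ), 2 ^ (d + 1) ≤ n → n < N → ∀ r : Fin 3,
    (S n (U r) : Module.End ℝ (L N)) ∈ (HC N).derivedHolonomy d := by
  induction d with
  | zero => intro n hn hnN r; exact S_mem n hn hnN r
  | succ d ih =>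
    intro n hn hnN r
    have hp : 2 ^ (d + 1 + 1) = 2 ^ (d + 1) + 2 ^ (d + 1) := by ring
    rw [hp] at hn
    have hpos : 1 ≤ 2 ^ (d + 1) := Nat.one_le_two_pow
    set a := 2 ^ (d + 1) with ha
    have key : ∀ r1 r2 r3 : Fin 3, U r1 ∘ₗ U r2 - U r2 ∘ₗ U r1 = (2 : ℝ) • U r3 →
        (S n (U r3) : Module.End ℝ (L N)) ∈ (HC N).derivedHolonomy (d + 1) := by
      intro r1 r2 r3 h
      have h1 := ih a le_rfl (by omega) r1
      have h2 := ih (n - a) (by omega) (by omega) r2
      have h3 : Hypercomplex.comm (S a (U r1) : Module.End ℝ (L N))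
          (S (n - a) (U r2) : Module.End ℝ (L N)) ∈ (HC N).derivedHolonomy (d + 1) :=
        Submodule.subset_span ⟨_, h1, _, h2, rfl⟩
      have h4 := ((HC N).derivedHolonomy (d + 1)).smul_mem (1 / 2 : ℝ) h3
      have h6 : a + (n - a) = n := by omega
      rw [S_comm, h, S_smul, smul_smul, h6] at h4
      norm_num at h4
      exact h4
    obtain ⟨c1, c2, c3⟩ := U_comm
    fin_cases r
    · exact key 1 2 0 c2
    · exact key 2 0 1 c3
    · exact key 0 1 2 c1


/-! ### The exact holonomy algebra -/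

open Hypercomplex (comm)

lemma S_add (n : ℕ) (T T' : V →ₗ[ℝ] V) :
    (S n T : Module.End ℝ (L N)) + S n T' = S n (T + T') := by
  refine LinearMap.ext fun a => ?_
  funext k
  rw [LinearMap.add_apply, add_ap, S_ap, S_ap, S_ap, ← Finset.sum_add_distrib]
  refine Finset.sum_congr rfl fun m _ => ?_
  split_ifs
  · rw [LinearMap.add_apply]
  · rw [add_zero]

lemma S_zero_of_le (n : ℕ) (hn : N ≤ n) (T : V →ₗ[ℝ] V) : (S n T : Module.End ℝ (L N)) = 0 := by
  refine LinearMap.ext fun a => ?_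
  funext k
  rw [S_ap]
  refine Finset.sum_eq_zero fun m _ => ?_
  rw [if_neg]
  have := k.2
  omega

/-- The span of the three operators `U r`. -/
noncomputable def su : Submodule ℝ (V →ₗ[ℝ] V) := Submodule.span ℝ (Set.range U)

lemma U_su (r : Fin 3) : U r ∈ su := Submodule.subset_span ⟨r, rfl⟩

/-- The span of the operators `U r t ^ n`, `a ≤ n < N`. -/
noncomputable def M (N a : ℕ) : Submodule ℝ (Module.End ℝ (L N)) :=
  Submodule.span ℝ (Set.range fun p : Fin (N - a) × Fin 3 => S (a + p.1) (U p.2))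

lemma S_memM (a n : ℕ) (han : a ≤ n) {T : V →ₗ[ℝ] V} (hT : T ∈ su) :
    (S n T : Module.End ℝ (L N)) ∈ M N a := by
  by_cases hn : N ≤ n
  · rw [S_zero_of_le n hn]
    exact Submodule.zero_mem _
  · refine Submodule.span_induction (p := fun T _ => (S n T : Module.End ℝ (L N)) ∈ M N a)
      ?_ ?_ ?_ ?_ hT
    · rintro _ ⟨r, rfl⟩
      refine Submodule.subset_span ⟨(⟨n - a, by omega⟩, r), ?_⟩
      show S (a + (n - a)) (U r) = S n (U r)
      rw [Nat.add_sub_cancel' han]
    · have h := S_smul (N := N) n 0 (0 : V →ₗ[ℝ] V)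
      rw [zero_smul, smul_zero] at h
      rw [← h]
      exact Submodule.zero_mem _
    · intro x y _ _ hx hy
      rw [← S_add]
      exact Submodule.add_mem _ hx hy
    · intro c x _ hx
      rw [← S_smul]
      exact Submodule.smul_mem _ c hx

lemma M_le {a b : ℕ} (h : a ≤ b) : M N b ≤ M N a := by
  refine Submodule.span_le.2 ?_
  rintro _ ⟨p, rfl⟩
  exact S_memM a _ (by omega) (U_su _)

lemma comm_add_left (x y z : Module.End ℝ (L N)) : comm (x + y) z = comm x z + comm y z := by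
  unfold Hypercomplex.comm; rw [add_mul, mul_add]; abel

lemma comm_add_right (x y z : Module.End ℝ (L N)) : comm x (y + z) = comm x y + comm x z := by
  unfold Hypercomplex.comm; rw [add_mul, mul_add]; abel

lemma comm_smul_left (c : ℝ) (x z : Module.End ℝ (L N)) : comm (c • x) z = c • comm x z := by
  unfold Hypercomplex.comm; rw [smul_mul_assoc, mul_smul_comm, smul_sub]

lemma comm_smul_right (c : ℝ) (x z : Module.End ℝ (L N)) : comm x (c • z) = c • comm x z := by
  unfold Hypercomplex.comm; rw [smul_mul_assoc, mul_smul_comm, smul_sub]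

lemma comm_zero_left (z : Module.End ℝ (L N)) : comm 0 z = 0 := by
  unfold Hypercomplex.comm; rw [zero_mul, mul_zero, sub_zero]

lemma comm_zero_right (z : Module.End ℝ (L N)) : comm z 0 = 0 := by
  unfold Hypercomplex.comm; rw [zero_mul, mul_zero, sub_zero]

lemma U_comm_mem (r s : Fin 3) : U r ∘ₗ U s - U s ∘ₗ U r ∈ su := by
  obtain ⟨c1, c2, c3⟩ := U_comm
  have key : ∀ r s t : Fin 3, U r ∘ₗ U s - U s ∘ₗ U r = (2 : ℝ) • U t →
      U r ∘ₗ U s - U s ∘ₗ U r ∈ su ∧ U s ∘ₗ U r - U r ∘ₗ U s ∈ su := by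
    intro r s t h
    have h1 : U r ∘ₗ U s - U s ∘ₗ U r ∈ su := by
      rw [h]; exact Submodule.smul_mem _ _ (U_su t)
    refine ⟨h1, ?_⟩
    have h2 := Submodule.neg_mem _ h1
    rwa [neg_sub] at h2
  have k1 := key 0 1 2 c1
  have k2 := key 1 2 0 c2
  have k3 := key 2 0 1 c3
  have hz : ∀ r : Fin 3, U r ∘ₗ U r - U r ∘ₗ U r ∈ su := fun r => by
    rw [sub_self]; exact Submodule.zero_mem _
  fin_cases r <;> fin_cases s
  · exact hz 0
  · exact k1.1
  · exact k3.2
  · exact k1.2
  · exact hz 1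
  · exact k2.1
  · exact k3.1
  · exact k2.2
  · exact hz 2

lemma comm_M {a b : ℕ} {X Y : Module.End ℝ (L N)} (hX : X ∈ M N a) (hY : Y ∈ M N b) :
    comm X Y ∈ M N (a + b) := by
  refine Submodule.span_induction (p := fun X _ => comm X Y ∈ M N (a + b)) ?_ ?_ ?_ ?_ hX
  · rintro _ ⟨p, rfl⟩
    refine Submodule.span_induction (p := fun Y _ =>
      comm (S (a + p.1) (U p.2)) Y ∈ M N (a + b)) ?_ ?_ ?_ ?_ hY
    · rintro _ ⟨q, rfl⟩
      show comm (S (a + p.1) (U p.2)) (S (b + q.1) (U q.2)) ∈ M N (a + b)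
      rw [S_comm]
      exact S_memM _ _ (by omega) (U_comm_mem _ _)
    · rw [comm_zero_right]; exact Submodule.zero_mem _
    · intro x y _ _ hx hy
      rw [comm_add_right]; exact Submodule.add_mem _ hx hy
    · intro c x _ hx
      rw [comm_smul_right]; exact Submodule.smul_mem _ c hx
  · rw [comm_zero_left]; exact Submodule.zero_mem _
  · intro x y _ _ hx hy
    rw [comm_add_left]; exact Submodule.add_mem _ hx hy
  · intro c x _ hx
    rw [comm_smul_left]; exact Submodule.smul_mem _ c hx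

lemma n4_U (x : V) : n4 x ∘ₗ U 0 - U 0 ∘ₗ n4 x = (-x 2) • U 2 + (x 3) • U 1 ∧
    n4 x ∘ₗ U 1 - U 1 ∘ₗ n4 x = (x 1) • U 2 + (-x 3) • U 0 ∧
    n4 x ∘ₗ U 2 - U 2 ∘ₗ n4 x = (-x 1) • U 1 + (x 2) • U 0 := by
  refine ⟨?_, ?_, ?_⟩ <;> refine LinearMap.ext fun a => ?_ <;> ext j <;> fin_cases j <;>
    simp [U, n4_ap] <;> ring

lemma n4_U_mem (x : V) (r : Fin 3) : n4 x ∘ₗ U r - U r ∘ₗ n4 x ∈ su := by
  obtain ⟨h1, h2, h3⟩ := n4_U x
  have key : ∀ (c d : ℝ) (s t : Fin 3), c • U s + d • U t ∈ su := fun c d s t =>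
    Submodule.add_mem _ (Submodule.smul_mem _ _ (U_su s)) (Submodule.smul_mem _ _ (U_su t))
  fin_cases r
  · show n4 x ∘ₗ U 0 - U 0 ∘ₗ n4 x ∈ su
    rw [h1]; exact key _ _ _ _
  · show n4 x ∘ₗ U 1 - U 1 ∘ₗ n4 x ∈ su
    rw [h2]; exact key _ _ _ _
  · show n4 x ∘ₗ U 2 - U 2 ∘ₗ n4 x ∈ su
    rw [h3]; exact key _ _ _ _

lemma R4_mem (x y : V) : R4 x y ∈ su := by
  have h : R4 x y = (-(x 0 * y 1 - x 1 * y 0) + (x 2 * y 3 - x 3 * y 2)) • U 0
      + (-(x 0 * y 2 - x 2 * y 0) / 2 - (x 1 * y 3 - x 3 * y 1) / 2) • U 1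
      + (-(x 0 * y 3 - x 3 * y 0) / 2 + (x 1 * y 2 - x 2 * y 1) / 2) • U 2 := by
    refine LinearMap.ext fun a => ?_
    ext j
    fin_cases j <;> simp [U, R4, n4_ap, b4_ap] <;> ring
  rw [h]
  exact Submodule.add_mem _ (Submodule.add_mem _ (Submodule.smul_mem _ _ (U_su _))
    (Submodule.smul_mem _ _ (U_su _))) (Submodule.smul_mem _ _ (U_su _))

lemma obata_sum (x : L N) : (HC N).obata x = ∑ i : Fin N, S ((i : ℕ) + 1) (n4 (x i)) := by
  refine LinearMap.ext fun a => ?_
  funext k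
  rw [obata_eq, conv_ap, LinearMap.sum_apply]
  have h : (∑ i : Fin N, (S ((i : ℕ) + 1) (n4 (x i)) : Module.End ℝ (L N)) a) k
      = ∑ i : Fin N, (S ((i : ℕ) + 1) (n4 (x i)) : Module.End ℝ (L N)) a k :=
    Finset.sum_apply k Finset.univ _
  rw [h]
  refine Finset.sum_congr rfl fun i _ => ?_
  rw [S_ap]
  refine Finset.sum_congr rfl fun j _ => ?_
  have : ((i : ℕ) + j + 1 = k) ↔ ((j : ℕ) + (i + 1) = k) := by omega
  simp only [this]

lemma comm_sum_left {ι : Type} (s : Finset ι) (f : ι → Module.End ℝ (L N))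
    (z : Module.End ℝ (L N)) : comm (∑ i ∈ s, f i) z = ∑ i ∈ s, comm (f i) z := by
  unfold Hypercomplex.comm
  rw [Finset.sum_mul, Finset.mul_sum, ← Finset.sum_sub_distrib]

lemma obata_comm_M {a : ℕ} (x : L N) {Y : Module.End ℝ (L N)} (hY : Y ∈ M N a) :
    comm ((HC N).obata x) Y ∈ M N a := by
  rw [obata_sum, comm_sum_left]
  refine Submodule.sum_mem _ fun i _ => ?_
  refine Submodule.span_induction (p := fun Y _ =>
      comm (S ((i : ℕ) + 1) (n4 (x i))) Y ∈ M N a) ?_ ?_ ?_ ?_ hY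
  · rintro _ ⟨q, rfl⟩
    show comm (S ((i : ℕ) + 1) (n4 (x i))) (S (a + q.1) (U q.2)) ∈ M N a
    rw [S_comm]
    exact S_memM _ _ (by omega) (n4_U_mem _ _)
  · rw [comm_zero_right]; exact Submodule.zero_mem _
  · intro x y _ _ hx hy
    rw [comm_add_right]; exact Submodule.add_mem _ hx hy
  · intro c x _ hx
    rw [comm_smul_right]; exact Submodule.smul_mem _ c hx

lemma obata_add (x y : L N) : (HC N).obata (x + y) = (HC N).obata x + (HC N).obata y := by
  refine LinearMap.ext fun a => ?_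
  rw [LinearMap.add_apply, obata_eq, obata_eq, obata_eq, conv_add_left]

lemma curv_add_left (x x' y : L N) :
    (HC N).curvature (x + x') y = (HC N).curvature x y + (HC N).curvature x' y := by
  unfold Hypercomplex.curvature
  rw [obata_add, comm_add_left, add_lie, obata_add]
  abel

lemma curv_add_right (x y y' : L N) :
    (HC N).curvature x (y + y') = (HC N).curvature x y + (HC N).curvature x y' := by
  unfold Hypercomplex.curvature
  rw [obata_add, comm_add_right, lie_add, obata_add]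
  abel

lemma curv_mem (x y : L N) : (HC N).curvature x y ∈ M N 2 := by
  have hs : ∀ x : L N, x = ∑ i : Fin N, e i (x i) := fun x =>
    (Finset.univ_sum_single x).symm
  have hz : ∀ y : L N, (HC N).curvature 0 y = 0 := by
    intro y
    have h := curv_add_left 0 0 y
    rw [add_zero] at h
    exact left_eq_add.1 h
  have hz' : ∀ y : L N, (HC N).curvature y 0 = 0 := by
    intro y
    have h := curv_add_right y 0 0
    rw [add_zero] at h
    exact left_eq_add.1 h
  rw [hs x]
  refine Finset.sum_induction _ (fun x => (HC N).curvature x y ∈ M N 2) ?_ ?_ ?_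
  · intro a b ha hb
    rw [curv_add_left]; exact Submodule.add_mem _ ha hb
  · rw [hz]; exact Submodule.zero_mem _
  · intro i _
    rw [hs y]
    refine Finset.sum_induction _ (fun y => (HC N).curvature (e i (x i)) y ∈ M N 2) ?_ ?_ ?_
    · intro a b ha hb
      rw [curv_add_right]; exact Submodule.add_mem _ ha hb
    · rw [hz']; exact Submodule.zero_mem _
    · intro j _
      rw [curv_eq]
      exact S_memM _ _ (by omega) (R4_mem _ _)

theorem hol_eq : (HC N).holonomy = M N 2 := by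
  refine le_antisymm (sInf_le ⟨fun X hX Y hY => M_le (by omega) (comm_M hX hY), curv_mem,
    fun x T hT => obata_comm_M x hT⟩) (Submodule.span_le.2 ?_)
  rintro _ ⟨p, rfl⟩
  exact S_mem _ (by omega) (by have := p.1.2; omega) _

theorem derived_eq (d : ℕ) : (HC N).derivedHolonomy d = M N (2 ^ (d + 1)) := by
  refine le_antisymm ?_ (Submodule.span_le.2 ?_)
  · induction d with
    | zero => exact hol_eq.le
    | succ d ih =>
      refine Submodule.span_le.2 ?_
      rintro _ ⟨X, hX, Y, hY, rfl⟩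
      have h := comm_M (ih hX) (ih hY)
      have h2 : 2 ^ (d + 1) + 2 ^ (d + 1) = 2 ^ (d + 1 + 1) := by ring
      rwa [h2] at h
  · rintro _ ⟨p, rfl⟩
    exact S_derived d _ (by omega) (by have := p.1.2; omega) _

theorem lower_mem (c : ℕ) : ∀ (n : ℕ), 2 * (c + 1) ≤ n → n < N → ∀ r : Fin 3,
    (S n (U r) : Module.End ℝ (L N)) ∈ (HC N).lowerHolonomy c := by
  induction c with
  | zero => intro n hn hnN r; exact S_mem n (by omega) hnN r
  | succ c ih =>
    intro n hn hnN r
    have key : ∀ r1 r2 r3 : Fin 3, U r1 ∘ₗ U r2 - U r2 ∘ₗ U r1 = (2 : ℝ) • U r3 →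
        (S n (U r3) : Module.End ℝ (L N)) ∈ (HC N).lowerHolonomy (c + 1) := by
      intro r1 r2 r3 h
      have h1 := ih (n - 2) (by omega) (by omega) r1
      have h2 := S_mem (N := N) 2 le_rfl (by omega) r2
      have h3 : comm (S (n - 2) (U r1) : Module.End ℝ (L N))
          (S 2 (U r2) : Module.End ℝ (L N)) ∈ (HC N).lowerHolonomy (c + 1) :=
        Submodule.subset_span ⟨_, h1, _, h2, rfl⟩
      have h4 := ((HC N).lowerHolonomy (c + 1)).smul_mem (1 / 2 : ℝ) h3
      have h6 : n - 2 + 2 = n := by omega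
      rw [S_comm, h, S_smul, smul_smul, h6] at h4
      norm_num at h4
      exact h4
    obtain ⟨c1, c2, c3⟩ := U_comm
    fin_cases r
    · exact key 1 2 0 c2
    · exact key 2 0 1 c3
    · exact key 0 1 2 c1

theorem lower_eq (c : ℕ) : (HC N).lowerHolonomy c = M N (2 * (c + 1)) := by
  refine le_antisymm ?_ (Submodule.span_le.2 ?_)
  · induction c with
    | zero => exact hol_eq.le
    | succ c ih =>
      refine Submodule.span_le.2 ?_
      rintro _ ⟨X, hX, Y, hY, rfl⟩
      rw [hol_eq] at hY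
      have h := comm_M (ih hX) hY
      have h2 : 2 * (c + 1) + 2 = 2 * (c + 1 + 1) := by ring
      rwa [h2] at h
  · rintro _ ⟨p, rfl⟩
    exact lower_mem c _ (by omega) (by have := p.1.2; omega) _

lemma S_e0 (h0 : 0 < N) (n : ℕ) (T : V →ₗ[ℝ] V) (v : V) (k : Fin N) :
    (S n T : Module.End ℝ (L N)) (e ⟨0, h0⟩ v) k = if n = k then T v else 0 := by
  rw [S_ap, Finset.sum_eq_single (⟨0, h0⟩ : Fin N)]
  · rw [e_same]
    show (if 0 + n = (k : ℕ) then T v else 0) = _
    rw [zero_add]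
  · intro m _ hm
    rw [e_ne hm, map_zero, ite_self]
  · intro h; exact absurd (Finset.mem_univ _) h

lemma U_v : U 0 ![1, 0, 0, 0] = ![0, -1, 0, 0] ∧ U 1 ![1, 0, 0, 0] = ![0, 0, 1, 0] ∧
    U 2 ![1, 0, 0, 0] = ![0, 0, 0, 1] := by
  refine ⟨?_, ?_, ?_⟩ <;> ext j <;> fin_cases j <;> simp [U, n4_ap] <;> norm_num

theorem finrank_M (a : ℕ) : Module.finrank ℝ (M N a) = 3 * (N - a) := by
  have hli : LinearIndependent ℝ
      (fun p : Fin (N - a) × Fin 3 => (S (a + p.1) (U p.2) : Module.End ℝ (L N))) := by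
    rw [Fintype.linearIndependent_iff]
    rintro g hg ⟨i, r⟩
    have hi := i.2
    have h0 : 0 < N := by omega
    have h1 := congrFun (LinearMap.congr_fun hg (e ⟨0, h0⟩ ![1, 0, 0, 0])) ⟨a + i, by omega⟩
    rw [LinearMap.sum_apply] at h1
    have h2 : (∑ p : Fin (N - a) × Fin 3,
        (g p • (S (a + p.1) (U p.2) : Module.End ℝ (L N))) (e ⟨0, h0⟩ ![1, 0, 0, 0]))
        ⟨a + i, by omega⟩ = ∑ p : Fin (N - a) × Fin 3, if p.1 = i then
          g p • U p.2 ![1, 0, 0, 0] else 0 := by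
      refine (Finset.sum_apply _ Finset.univ _).trans ?_
      refine Finset.sum_congr rfl fun p _ => ?_
      rw [LinearMap.smul_apply, smul_ap, S_e0]
      by_cases hp : p.1 = i
      · rw [if_pos (by rw [hp]), if_pos hp]
      · rw [if_neg, if_neg hp, smul_zero]
        intro h3
        have h4 : a + (p.1 : ℕ) = a + (i : ℕ) := h3
        exact hp (Fin.ext (by omega))
    rw [h2, Fintype.sum_prod_type, Finset.sum_eq_single i] at h1
    · obtain ⟨u0, u1, u2⟩ := U_v
      simp only [if_true, Fin.sum_univ_three] at h1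
      have h3 : g (i, 0) • U 0 ![1, 0, 0, 0] + g (i, 1) • U 1 ![1, 0, 0, 0]
        + g (i, 2) • U 2 ![1, 0, 0, 0] = (0 : V) := h1
      rw [u0, u1, u2] at h3
      have e1 := congrFun h3 1
      have e2 := congrFun h3 2
      have e3 := congrFun h3 3
      simp at e1 e2 e3
      fin_cases r
      · exact e1
      · exact e2
      · exact e3
    · intro j _ hj
      refine Finset.sum_eq_zero fun r _ => ?_
      rw [if_neg hj]
    · intro h; exact absurd (Finset.mem_univ _) h
  have h := finrank_span_eq_card hli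
  rw [Fintype.card_prod, Fintype.card_fin, Fintype.card_fin, mul_comm] at h
  exact h

/-- For every `N` there is a nilpotent real Lie algebra of dimension `4 N` with a hypercomplex
structure, such that the terms of the derived series of the holonomy algebra of the Obata connection
have exactly the dimensions `3 (N - 2 ^ (d + 1))` (`0`, if this is negative), and those of its lower
central series `3 (N - 2 (c + 1))`. -/
theorem result (N : ℕ) : ∃ (g : Type) (_ : LieRing g) (_ : LieAlgebra ℝ g),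
    Module.finrank ℝ g = 4 * N ∧ Module.Finite ℝ g ∧ LieRing.IsNilpotent g ∧
      ∃ H : Hypercomplex g,
        (∀ d, Module.finrank ℝ (H.derivedHolonomy d) = 3 * (N - 2 ^ (d + 1))) ∧
        ∀ c, Module.finrank ℝ (H.lowerHolonomy c) = 3 * (N - 2 * (c + 1)) :=
  ⟨L N, inferInstance, inferInstance, finrank_L, inferInstance, inferInstance, HC N,
    fun d => by rw [derived_eq, finrank_M], fun c => by rw [lower_eq, finrank_M]⟩

end Pool.Agent.Results.MP_590da2_gt.EveryLengthAndClass
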